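import Pool.Agent.U540.VD.Nor

/-!
# The one-point compactification of `Sp L` and the first uncountable ordinal
-/

set_option autoImplicit false

namespace Pool.Agent.U540.VD

open Set Filter Topology

section NotNormal

variable {L : Lad}

theorem not_countable : ¬ (univ : Set (Sp L)).Countable := Cardinal.not_countable_real

theorem not_normal (hL : Good L) : ¬ NormalSpace (Sp L × OnePoint (Sp L)) := by
  intro hN
  let Δ : Set (Sp L × OnePoint (Sp L)) := {p | (p.1 : OnePoint (Sp L)) = p.2}
  let E : Set (Sp L × OnePoint (Sp L)) := {p | p.2 = OnePoint.infty}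
  have hΔ : IsClosed Δ :=
    isClosed_eq (OnePoint.continuous_coe.comp continuous_fst) continuous_snd
  have hE : IsClosed E := isClosed_eq continuous_snd continuous_const
  have hd : Disjoint Δ E := by
    rw [disjoint_left]
    intro p hp hq
    have h1 : (p.1 : OnePoint (Sp L)) = p.2 := hp
    have h2 : p.2 = OnePoint.infty := hq
    exact OnePoint.coe_ne_infty _ (h1.trans h2)
  obtain ⟨O, O', hO, hO', h1, h2, h3⟩ := hN.normal Δ E hΔ hE hd
  have hW : ∀ z : Sp L, ∃ W : Set (Sp L), IsOpen W ∧ z ∈ W ∧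
      ∀ x ∈ W, ∀ y ∈ W, (x, (y : OnePoint (Sp L))) ∈ O := by
    intro z
    have h4 : (fun p : Sp L × Sp L => (p.1, (p.2 : OnePoint (Sp L)))) ⁻¹' O ∈ 𝓝 (z, z) := by
      apply (hO.preimage (continuous_fst.prodMk
        (OnePoint.continuous_coe.comp continuous_snd))).mem_nhds
      exact h1 rfl
    rw [nhds_prod_eq, Filter.mem_prod_same_iff] at h4
    obtain ⟨t, ht, htO⟩ := h4
    obtain ⟨W, hWt, hWo, hzW⟩ := mem_nhds_iff.1 ht
    exact ⟨W, hWo, hzW, fun x hx y hy => htO (mk_mem_prod (hWt hx) (hWt hy))⟩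
  choose W hWo hzW hWO using hW
  have hV : ∀ z : Sp L, {y : Sp L | (z, (y : OnePoint (Sp L))) ∈ O}.Countable := by
    intro z
    have h4 : IsOpen {c : OnePoint (Sp L) | (z, c) ∈ O'} :=
      hO'.preimage (by fun_prop : Continuous fun c : OnePoint (Sp L) => (z, c))
    have h5 : OnePoint.infty ∈ {c : OnePoint (Sp L) | (z, c) ∈ O'} := h2 rfl
    have h6 := ((OnePoint.isOpen_iff_of_mem h5).1 h4).2
    refine (countable_of_isCompact h6).mono ?_
    intro y hy hy2
    exact disjoint_left.1 h3 hy hy2
  let R : Sp L → Sp L → Prop := fun x y => ∃ z, x ∈ W z ∧ y ∈ W z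
  have hRs : ∀ x y, R x y → R y x := fun x y ⟨z, h1, h2⟩ => ⟨z, h2, h1⟩
  have hRc : ∀ x, {y | R x y}.Countable := by
    intro x
    refine (hV x).mono ?_
    rintro y ⟨z, hx, hy⟩
    exact hWO z x hx y hy
  have hen : ∀ x, ∃ f : ℕ → Sp L, {y | R x y} ⊆ range f := by
    intro x
    have : Nonempty (Sp L) := ⟨x⟩
    exact countable_iff_exists_subset_range.1 (hRc x)
  choose f hf using hen
  have hcl : ∀ x, {y | Relation.ReflTransGen R x y}.Countable := by
    intro x
    refine (countable_range fun l : List ℕ => l.foldr (fun n a => f a n) x).mono ?_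
    intro y hy
    induction hy with
    | refl => exact ⟨[], rfl⟩
    | tail _ hyz ih =>
      obtain ⟨l, hl⟩ := ih
      obtain ⟨n, hn⟩ := hf _ hyz
      refine ⟨n :: l, ?_⟩
      rw [← hn, ← hl]
      rfl
  have hsym : Std.Symm R := ⟨hRs⟩
  let st : Setoid (Sp L) := ⟨Relation.ReflTransGen R, fun x => Relation.ReflTransGen.refl,
    fun {x y} h => (Relation.ReflTransGen.stdSymm (r := R)).symm x y h, fun h1 h2 => h1.trans h2⟩
  have hD := countable_of_discrete hL (range (Quotient.out : Quotient st → Sp L)) (by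
    intro S hS
    rw [← biUnion_of_singleton S, biUnion_eq_iUnion]
    refine LocallyFinite.isClosed_iUnion ?_ fun i => isClosed_singleton
    intro x
    refine ⟨W x, (hWo x).mem_nhds (hzW x), Set.Subsingleton.finite ?_⟩
    rintro ⟨s, hs⟩ ⟨y, hy1, hy2⟩ ⟨t, ht⟩ ⟨z, hz1, hz2⟩
    have hy1' : y = s := hy1
    have hz1' : z = t := hz1
    subst hy1'
    subst hz1'
    obtain ⟨a, ha⟩ := hS hs
    obtain ⟨b, hb⟩ := hS ht
    have h4 : (⟦y⟧ : Quotient st) = ⟦z⟧ :=
      Quotient.sound (Relation.ReflTransGen.single ⟨x, hy2, hz2⟩)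
    rw [← ha, ← hb, Quotient.out_eq, Quotient.out_eq] at h4
    apply Subtype.ext
    show y = z
    rw [← ha, ← hb, h4])
  have hu : (univ : Set (Sp L)) ⊆ ⋃ x ∈ range (Quotient.out : Quotient st → Sp L),
      {y | Relation.ReflTransGen R x y} := by
    intro y _
    refine mem_biUnion (x := Quotient.out (⟦y⟧ : Quotient st)) ⟨_, rfl⟩ ?_
    exact Quotient.exact (Quotient.out_eq (⟦y⟧ : Quotient st))
  exact not_countable ((hD.biUnion fun x _ => hcl x).mono hu)

/-- The one-point compactification is countably tight. -/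
theorem tight (S : Set (OnePoint (Sp L))) (c : OnePoint (Sp L)) (hc : c ∈ closure S) :
    ∃ T ⊆ S, T.Countable ∧ c ∈ closure T := by
  induction c using OnePoint.rec with
  | infty =>
    by_cases hS : OnePoint.infty ∈ S
    · exact ⟨{OnePoint.infty}, by simpa using hS, countable_singleton _,
        subset_closure (mem_singleton _)⟩
    · let S' : Set (Sp L) := OnePoint.some ⁻¹' S
      have hs : TopologicalSpace.IsSeparable (e '' S') :=
        TopologicalSpace.IsSeparable.of_separableSpace _
      obtain ⟨t, h1, h2, h3⟩ := hs.exists_countable_dense_subset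
      have h4 : (e ⁻¹' t : Set (Sp L)).Countable := h2.preimage e_inj
      have h5 : e ⁻¹' t ⊆ S' := by
        intro x hx
        obtain ⟨y, hy, hxy⟩ := h1 hx
        have := e_inj hxy
        subst this
        exact hy
      refine ⟨OnePoint.some '' (e ⁻¹' t : Set (Sp L)), ?_, h4.image _, ?_⟩
      · rintro _ ⟨x, hx, rfl⟩
        exact h5 hx
      · by_contra hcon
        have h6 : OnePoint.infty ∈ (closure (OnePoint.some '' (e ⁻¹' t : Set (Sp L))))ᶜ := hcon
        have h7 := ((OnePoint.isOpen_iff_of_mem h6).1 isClosed_closure.isOpen_compl).2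
        rw [preimage_compl, compl_compl] at h7
        have h8 : IsClosed (e '' (OnePoint.some ⁻¹' closure (OnePoint.some '' (e ⁻¹' t : Set (Sp L))) :
            Set (Sp L))) := (h7.image continuous_e).isClosed
        have h9 : t ⊆ e '' (OnePoint.some ⁻¹' closure (OnePoint.some '' (e ⁻¹' t : Set (Sp L))) : Set (Sp L)) := by
          intro y hy
          exact ⟨y, subset_closure ⟨y, hy, rfl⟩, rfl⟩
        have h10 : S ⊆ closure (OnePoint.some '' (e ⁻¹' t : Set (Sp L))) := by
          intro s hs
          induction s using OnePoint.rec with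
          | infty => exact absurd hs hS
          | coe x =>
            obtain ⟨y, hy, hxy⟩ := (closure_minimal h9 h8) (h3 ⟨x, hs, rfl⟩)
            have := e_inj hxy
            subst this
            exact hy
        exact hcon (closure_minimal h10 isClosed_closure hc)
  | coe x =>
    have ho : IsOpen (OnePoint.some '' (U x 0) : Set (OnePoint (Sp L))) :=
      OnePoint.isOpenEmbedding_coe.isOpenMap _ (isOpen_U x 0)
    refine ⟨S ∩ OnePoint.some '' (U x 0), inter_subset_left,
      ((countable_U x 0).image _).mono inter_subset_right, ?_⟩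
    rw [mem_closure_iff] at hc ⊢
    intro o ho2 hx
    obtain ⟨y, hy, hyS⟩ := hc (o ∩ OnePoint.some '' (U x 0)) (ho2.inter ho) ⟨hx, ⟨x, self_mem _ _, rfl⟩⟩
    exact ⟨y, hy.1, hyS, hy.2⟩

end NotNormal

end Pool.Agent.U540.VD
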