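import Mathlib

/-!
# The first uncountable ordinal: products with countably tight compact spaces, covers
-/

set_option autoImplicit false

namespace Pool.Agent.U540.VD

open Set Filter Topology

section

variable {W : Type} [LinearOrder W] [WellFoundedLT W] [TopologicalSpace W] [OrderTopology W]

theorem om_noMax (hc : ∀ a : W, (Iic a).Countable) (hu : ¬ (univ : Set W).Countable) (a : W) :
    ∃ b, a < b := by
  by_contra h
  push Not at h
  exact hu ((hc a).mono fun x _ => h x)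

theorem om_bdd (hc : ∀ a : W, (Iic a).Countable) (hu : ¬ (univ : Set W).Countable) {S : Set W}
    (hS : S.Countable) : ∃ b, ∀ a ∈ S, a ≤ b := by
  by_contra h
  push Not at h
  apply hu
  refine (hS.biUnion fun a _ => hc a).mono fun x _ => ?_
  obtain ⟨a, ha, hxa⟩ := h x
  exact mem_biUnion ha hxa.le

theorem om_lim (hc : ∀ a : W, (Iic a).Countable) (hu : ¬ (univ : Set W).Countable) {u : ℕ → W}
    (h : Monotone u) : ∃ δ, Tendsto u atTop (𝓝 δ) ∧ ∀ n, u n ≤ δ := by
  obtain ⟨b, hb⟩ := om_bdd hc hu (countable_range u)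
  obtain ⟨δ, hδ, hmin⟩ := WellFounded.has_min (wellFounded_lt (α := W))
    (upperBounds (range u)) ⟨b, fun a ha => hb a ha⟩
  have hl : IsLUB (range u) δ := ⟨hδ, fun c hc => not_lt.1 (hmin c hc)⟩
  exact ⟨δ, tendsto_atTop_isLUB h hl, fun n => hδ ⟨n, rfl⟩⟩

theorem om_open (hc : ∀ a : W, (Iic a).Countable) (hu : ¬ (univ : Set W).Countable) (a : W) :
    IsOpen (Iic a) := by
  obtain ⟨b, hb, hmin⟩ := WellFounded.has_min (wellFounded_lt (α := W)) (Ioi a)
    (om_noMax hc hu a)
  have : Iic a = Iio b := by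
    ext x
    constructor
    · intro hx
      exact lt_of_le_of_lt hx hb
    · intro hx
      by_contra h
      exact hmin x (not_le.1 h) hx
  rw [this]
  exact isOpen_Iio

theorem om_cpt (a : W) : IsCompact (Iic a) := by
  induction a using (wellFounded_lt (α := W)).induction with
  | _ a ih =>
    apply isCompact_of_finite_subcover
    intro ι O hO hcov
    obtain ⟨i₀, hi₀⟩ := mem_iUnion.1 (hcov (self_mem_Iic (a := a)))
    classical
    by_cases hl : ∃ l, l < a
    · obtain ⟨l, hla, hl2⟩ := exists_Ioc_subset_of_mem_nhds ((hO i₀).mem_nhds hi₀) hl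
      obtain ⟨t, ht⟩ := (ih l hla).elim_finite_subcover O hO
        ((Iic_subset_Iic.2 hla.le).trans hcov)
      refine ⟨insert i₀ t, fun x hx => ?_⟩
      rw [mem_iUnion₂]
      by_cases hxl : x ≤ l
      · obtain ⟨i, hi, hxi⟩ := mem_iUnion₂.1 (ht hxl)
        exact ⟨i, Finset.mem_insert_of_mem hi, hxi⟩
      · exact ⟨i₀, Finset.mem_insert_self _ _, hl2 ⟨not_le.1 hxl, hx⟩⟩
    · refine ⟨{i₀}, fun x hx => ?_⟩
      rw [mem_iUnion₂]
      push Not at hl
      have : x = a := le_antisymm hx (hl x)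
      subst this
      exact ⟨i₀, by simp, hi₀⟩

/-- Two closed unbounded sets meet. -/
theorem om_meet (hc : ∀ a : W, (Iic a).Countable) (hu : ¬ (univ : Set W).Countable)
    {A B : Set W} (hA : IsClosed A) (hB : IsClosed B) (hA2 : ∀ a, ∃ b, a ≤ b ∧ b ∈ A)
    (hB2 : ∀ a, ∃ b, a ≤ b ∧ b ∈ B) : (A ∩ B).Nonempty := by
  choose f hf hfA using hA2
  choose g hg hgB using hB2
  have : Nonempty W := by
    by_contra h
    rw [not_nonempty_iff] at h
    exact hu (Set.countable_univ)
  let a₀ : W := Classical.arbitrary W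
  let u : ℕ → W := fun n => Nat.rec a₀ (fun k x => if Even k then f x else g x) n
  have hu1 : ∀ k, u (k + 1) = if Even k then f (u k) else g (u k) := fun k => rfl
  have hmono : Monotone u := by
    apply monotone_nat_of_le_succ
    intro k
    rw [hu1]
    split_ifs
    · exact hf _
    · exact hg _
  obtain ⟨δ, hδ, _⟩ := om_lim hc hu hmono
  refine ⟨δ, ?_, ?_⟩
  · refine hA.mem_of_frequently_of_tendsto (b := atTop) (f := u) ?_ hδ
    rw [frequently_atTop]
    intro N
    refine ⟨2 * N + 1, by omega, ?_⟩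
    rw [hu1, if_pos (even_two_mul N)]
    exact hfA _
  · refine hB.mem_of_frequently_of_tendsto (b := atTop) (f := u) ?_ hδ
    rw [frequently_atTop]
    intro N
    refine ⟨2 * N + 2, by omega, ?_⟩
    rw [hu1, if_neg (by simp [parity_simps])]
    exact hgB _

/-- The product with a countably tight compact Hausdorff space is normal. -/
theorem om_normal (hc : ∀ a : W, (Iic a).Countable) (hu : ¬ (univ : Set W).Countable)
    {C : Type} [TopologicalSpace C] [CompactSpace C] [T2Space C]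
    (ht : ∀ (S : Set C) (c : C), c ∈ closure S → ∃ T ⊆ S, T.Countable ∧ c ∈ closure T) :
    NormalSpace (W × C) := by
  have hne : Nonempty W := by
    by_contra h
    rw [not_nonempty_iff] at h
    exact hu (Set.countable_univ)
  refine ⟨fun A B hA hB hd => ?_⟩
  let pr : Set (W × C) → W → Set C := fun A α => {c | ∃ β, α ≤ β ∧ (β, c) ∈ A}
  have hpr : ∀ A : Set (W × C), IsClosed A → ∀ α, IsClosed (pr A α) := by
    intro A hA α
    refine isClosed_of_closure_subset fun c hcc => ?_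
    obtain ⟨T, hT1, hT2, hT3⟩ := ht _ c hcc
    choose β hβ1 hβ2 using fun (t : T) => hT1 t.2
    have : Countable T := hT2
    obtain ⟨γ, hγ⟩ := om_bdd hc hu (countable_range β)
    have h1 : IsCompact (A ∩ (Icc α γ ×ˢ univ)) := by
      have h2 : IsCompact (Icc α γ ×ˢ (univ : Set C)) := by
        refine IsCompact.prod ?_ isCompact_univ
        exact (om_cpt γ).of_isClosed_subset isClosed_Icc Icc_subset_Iic_self
      exact h2.inter_left hA
    have h3 : IsClosed (Prod.snd '' (A ∩ (Icc α γ ×ˢ univ))) :=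
      (h1.image continuous_snd).isClosed
    have h4 : T ⊆ Prod.snd '' (A ∩ (Icc α γ ×ˢ univ)) := by
      intro t htT
      exact ⟨(β ⟨t, htT⟩, t), ⟨hβ2 ⟨t, htT⟩, ⟨hβ1 ⟨t, htT⟩, hγ _ ⟨_, rfl⟩⟩, mem_univ _⟩, rfl⟩
    obtain ⟨⟨b, d⟩, ⟨h5, h6, _⟩, rfl⟩ := closure_minimal h4 h3 hT3
    exact ⟨b, h6.1, h5⟩
  have hanti : ∀ A : Set (W × C), ∀ {α β}, α ≤ β → pr A β ⊆ pr A α := by
    rintro A α β hαβ c ⟨γ, hγ, h⟩
    exact ⟨γ, hαβ.trans hγ, h⟩
  have hex : ∃ α, Disjoint (pr A α) (pr B α) := by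
    by_contra hcon
    push Not at hcon
    obtain ⟨c, hcI⟩ := IsCompact.nonempty_iInter_of_directed_nonempty_isCompact_isClosed
      (fun α => pr A α ∩ pr B α) (by
        intro α β
        refine ⟨max α β, ?_, ?_⟩
        · exact inter_subset_inter (hanti A (le_max_left _ _)) (hanti B (le_max_left _ _))
        · exact inter_subset_inter (hanti A (le_max_right _ _)) (hanti B (le_max_right _ _)))
      (fun α => not_disjoint_iff_nonempty_inter.1 (hcon α))
      (fun α => ((hpr A hA α).inter (hpr B hB α)).isCompact)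
      (fun α => (hpr A hA α).inter (hpr B hB α))
    rw [mem_iInter] at hcI
    have hcont : Continuous fun β : W => (β, c) := by fun_prop
    obtain ⟨β, h1, h2⟩ := om_meet hc hu (hA.preimage hcont) (hB.preimage hcont)
      (fun a => (hcI a).1) (fun a => (hcI a).2)
    exact disjoint_left.1 hd h1 h2
  obtain ⟨α, hα⟩ := hex
  obtain ⟨O₁, O₂, hO₁, hO₂, h1, h2, h3⟩ := normal_separation (hpr A hA α) (hpr B hB α) hα
  have hcα : IsCompact (Iic α ×ˢ (univ : Set C)) := (om_cpt α).prod isCompact_univ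
  obtain ⟨G₁, G₂, hG₁, hG₂, h4, h5, h6⟩ := SeparatedNhds.of_isCompact_isCompact
    (hcα.inter_left hA) (hcα.inter_left hB)
    (hd.mono inter_subset_left inter_subset_left)
  have hIic : IsOpen (Iic α ×ˢ (univ : Set C)) := (om_open hc hu α).prod isOpen_univ
  refine ⟨(Ioi α ×ˢ O₁) ∪ (G₁ ∩ (Iic α ×ˢ univ)), (Ioi α ×ˢ O₂) ∪ (G₂ ∩ (Iic α ×ˢ univ)),
    (isOpen_Ioi.prod hO₁).union (hG₁.inter hIic), (isOpen_Ioi.prod hO₂).union (hG₂.inter hIic),
    ?_, ?_, ?_⟩
  · rintro ⟨β, c⟩ hp
    by_cases hβ : β ≤ α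
    · exact Or.inr ⟨h4 ⟨hp, hβ, mem_univ _⟩, hβ, mem_univ _⟩
    · exact Or.inl ⟨not_le.1 hβ, h1 ⟨β, (not_le.1 hβ).le, hp⟩⟩
  · rintro ⟨β, c⟩ hp
    by_cases hβ : β ≤ α
    · exact Or.inr ⟨h5 ⟨hp, hβ, mem_univ _⟩, hβ, mem_univ _⟩
    · exact Or.inl ⟨not_le.1 hβ, h2 ⟨β, (not_le.1 hβ).le, hp⟩⟩
  · rw [disjoint_left]
    rintro ⟨β, c⟩ (⟨h7, h8⟩ | ⟨h7, h8, _⟩) (⟨h9, h10⟩ | ⟨h9, h10, _⟩)
    · exact disjoint_left.1 h3 h8 h10
    · exact absurd h10 (not_le.2 h7)
    · exact absurd h8 (not_le.2 h9)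
    · exact disjoint_left.1 h6 h7 h9

/-- The cover by the initial segments has no locally finite open refinement. -/
theorem om_not_para (hc : ∀ a : W, (Iic a).Countable) (hu : ¬ (univ : Set W).Countable)
    (V : W → Set W) (hV : ∀ i, IsOpen (V i)) (hVs : ∀ i, V i ⊆ Iio i)
    (hcov : (⋃ i, V i) = univ) (hlf : LocallyFinite V) : False := by
  have hne : Nonempty W := by
    by_contra h
    rw [not_nonempty_iff] at h
    exact hu (Set.countable_univ)
  have h1 : ∀ a, ∃ b, a ≤ b ∧ ∀ i, (V i ∩ Iic a).Nonempty → i ≤ b := by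
    intro a
    have hfin := hlf.finite_nonempty_inter_compact (om_cpt a)
    obtain ⟨b, hb⟩ := om_bdd hc hu hfin.countable
    exact ⟨max a b, le_max_left _ _, fun i hi => (hb i hi).trans (le_max_right _ _)⟩
  choose g hg hg2 using h1
  let a₀ : W := Classical.arbitrary W
  let u : ℕ → W := fun n => Nat.rec a₀ (fun _ x => g x) n
  have hu1 : ∀ k, u (k + 1) = g (u k) := fun k => rfl
  have hmono : Monotone u := monotone_nat_of_le_succ fun k => by rw [hu1]; exact hg _
  obtain ⟨δ, hδ, hδ2⟩ := om_lim hc hu hmono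
  obtain ⟨i, hi⟩ := mem_iUnion.1 (hcov ▸ mem_univ δ : δ ∈ ⋃ i, V i)
  obtain ⟨n, hn⟩ := (hδ.eventually ((hV i).mem_nhds hi)).exists
  have h2 : i ≤ u (n + 1) := by
    rw [hu1]
    exact hg2 _ i ⟨u n, hn, le_rfl⟩
  exact absurd (h2.trans (hδ2 (n + 1))) (not_le.2 (hVs i hi))

end

/-- There is a well-ordered space like the first uncountable ordinal. -/
theorem exists_om : ∃ (W : Type) (_ : LinearOrder W) (_ : WellFoundedLT W),
    (∀ a : W, (Iic a).Countable) ∧ ¬ (univ : Set W).Countable ∧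
      Cardinal.mk W = Cardinal.aleph 1 := by
  have h := Cardinal.mk_ord_toType (Cardinal.aleph 1)
  refine ⟨(Cardinal.aleph 1).ord.ToType, inferInstance, inferInstance, ?_, ?_, h⟩
  · intro a
    have h1 : Cardinal.mk (Iio a) < Cardinal.aleph 1 := by
      have := Cardinal.mk_Iio_lt a (by simp)
      rwa [h] at this
    have h2 : (Iio a).Countable := (Cardinal.countable_iff_lt_aleph_one _).2 h1
    rw [← Iio_insert]
    exact h2.insert _
  · intro hcn
    have := (Cardinal.countable_iff_lt_aleph_one _).1 hcn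
    rw [Cardinal.mk_univ, h] at this
    exact lt_irrefl _ this

end Pool.Agent.U540.VD
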