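import Pool.Agent.U540.VD.Top

/-!
# A ladder system which catches all countable sequences of sets

`Good L`: whenever the closures (in the real line) of the countable sets `range (s n)` have an
uncountable intersection, some point of `Sp L` is a limit of each of these sets. Such a ladder
system exists (in ZFC): uncountable closed sets have `𝔠` points, so the tasks can be assigned to
different points, each above the points of the sets of its task in a well-order of type `𝔠`.
-/

set_option autoImplicit false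

namespace Pool.Agent.U540.VD

open Set Cardinal

/-- The catching property. -/
def Good (L : Lad) : Prop :=
  ∀ s : ℕ → ℕ → ℝ, ¬ (⋂ n, closure (range (s n))).Countable →
    ∃ x, L.P x ∧ ∀ n K : ℕ, ∃ k, K ≤ k ∧ L.b x k ∈ range (s n)

theorem inj_choice {ι : Type} (K : ι → Set ℝ) (c : Cardinal.{0}) (hι : #ι ≤ c)
    (hK : ∀ i, c ≤ #(K i)) : ∃ f : ι → ℝ, Function.Injective f ∧ ∀ i, f i ∈ K i := by
  obtain ⟨r, hr, ho⟩ := Cardinal.exists_ord_eq ι
  have step : ∀ (i : ι) (g : {j // r j i} → ℝ), ∃ x ∈ K i, ∀ j, g j ≠ x := by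
    intro i g
    by_contra hcon
    push Not at hcon
    have h1 : K i ⊆ range g := fun x hx => hcon x hx
    have h2 : #(K i) ≤ #{j // r j i} := (mk_le_mk_of_subset h1).trans mk_range_le
    have h3 : #{j // r j i} < #ι := by
      rw [← Ordinal.card_typein]; exact card_typein_lt i ho
    exact absurd ((hK i).trans h2) (not_le.2 (h3.trans_le hι))
  choose F hF1 hF2 using step
  have wf : WellFounded r := IsWellFounded.wf
  let f : ι → ℝ := wf.fix (fun i g => F i (fun j => g j.1 j.2))
  have hf : ∀ i, f i = F i (fun j => f j.1) := fun i => WellFounded.fix_eq _ _ _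
  have hne : ∀ i j, r i j → f i ≠ f j := by
    intro i j h
    have := hF2 j (fun k => f k.1) ⟨i, h⟩
    rw [← hf j] at this
    exact this
  refine ⟨f, ?_, ?_⟩
  · intro i j hij
    rcases trichotomous_of r i j with h | h | h
    · exact absurd hij (hne i j h)
    · exact h
    · exact absurd hij.symm (hne j i h)
  · intro i
    rw [hf i]
    exact hF1 i _

theorem exists_good : ∃ L : Lad, Good L := by
  obtain ⟨r, hr, ho⟩ := Cardinal.exists_ord_eq ℝ
  have wf : WellFounded r := IsWellFounded.wf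
  let T := {s : ℕ → ℕ → ℝ // ¬ (⋂ n, closure (range (s n))).Countable}
  let K : T → Set ℝ := fun t =>
    (⋂ n, closure (range (t.1 n))) ∩ {x | ∀ n m, r (t.1 n m) x}
  have hT : #T ≤ 𝔠 := by
    refine (mk_subtype_le _).trans ?_
    rw [← power_def, ← power_def, mk_real, mk_nat, continuum_power_aleph0,
      continuum_power_aleph0]
  have hK : ∀ t, 𝔠 ≤ #(K t) := by
    intro t
    have hC : IsClosed (⋂ n, closure (range (t.1 n))) := isClosed_iInter fun n => isClosed_closure
    obtain ⟨f, hf, _, hinj⟩ := hC.exists_nat_bool_injection_of_not_countable t.2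
    have h1 : 𝔠 ≤ #(⋂ n, closure (range (t.1 n)) : Set ℝ) := by
      have h := mk_le_of_injective
        (f := fun a => (⟨f a, hf ⟨a, rfl⟩⟩ : (⋂ n, closure (range (t.1 n)) : Set ℝ)))
        (fun a b hab => hinj (congrArg Subtype.val hab))
      refine le_trans (le_of_eq ?_) h
      rw [← power_def, mk_bool, mk_nat, two_power_aleph0]
    let B : Set ℝ := ⋃ p : ℕ × ℕ, {x | ¬ r (t.1 p.1 p.2) x}
    have hB1 : ∀ a : ℝ, #{x | ¬ r a x} < 𝔠 := by
      intro a
      have h2 : {x | ¬ r a x} ⊆ insert a {x | r x a} := by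
        intro x hx
        rcases trichotomous_of r a x with h | h | h
        · exact absurd h hx
        · exact Or.inl h.symm
        · exact Or.inr h
      have h3 : #{x | r x a} < 𝔠 := by
        have := card_typein_lt a ho
        rw [Ordinal.card_typein, mk_real] at this
        exact this
      refine (mk_le_mk_of_subset h2).trans_lt (mk_insert_le.trans_lt ?_)
      exact add_lt_of_lt aleph0_le_continuum h3 (one_lt_aleph0.trans_le aleph0_le_continuum)
    have hB : #B < 𝔠 := by
      calc #B ≤ Cardinal.sum (fun p : ℕ × ℕ => #{x | ¬ r (t.1 p.1 p.2) x}) :=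
            mk_iUnion_le_sum_mk
        _ < Cardinal.prod (fun _ : ℕ × ℕ => 𝔠) := sum_lt_prod _ _ (fun p => hB1 _)
        _ = 𝔠 := by simp
    by_contra hcon
    push Not at hcon
    have h4 : (⋂ n, closure (range (t.1 n)) : Set ℝ) ⊆ K t ∪ B := by
      intro x hx
      by_cases h : ∀ n m, r (t.1 n m) x
      · exact Or.inl ⟨hx, h⟩
      · push Not at h
        obtain ⟨n, m, h⟩ := h
        exact Or.inr (mem_iUnion.2 ⟨(n, m), h⟩)
    have h5 := h1.trans ((mk_le_mk_of_subset h4).trans (mk_union_le _ _))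
    exact absurd h5 (not_le.2 (add_lt_of_lt aleph0_le_continuum hcon hB))
  obtain ⟨f, hinj, hfK⟩ := inj_choice K 𝔠 hT hK
  have hlad : ∀ x : ℝ, ∃ b : ℕ → ℝ, ∀ t : T, f t = x →
      ∀ k : ℕ, b k ∈ range (t.1 k.unpair.1) ∧ |b k - x| ≤ 1 / (2 * ((k : ℝ) + 1)) := by
    intro x
    by_cases hx : ∃ t, f t = x
    · obtain ⟨t, rfl⟩ := hx
      have h1 : ∀ k : ℕ, ∃ y, y ∈ range (t.1 k.unpair.1) ∧
          |y - f t| ≤ 1 / (2 * ((k : ℝ) + 1)) := by
        intro k
        have h2 : f t ∈ closure (range (t.1 k.unpair.1)) := mem_iInter.1 (hfK t).1 _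
        obtain ⟨y, hy, hd⟩ := Metric.mem_closure_iff.1 h2 (1 / (2 * ((k : ℝ) + 1)))
          (by positivity)
        refine ⟨y, hy, ?_⟩
        rw [dist_comm, Real.dist_eq] at hd
        exact hd.le
      choose b hb using h1
      refine ⟨b, fun t' ht' => ?_⟩
      have := hinj ht'
      subst this
      exact hb
    · exact ⟨fun _ => 0, fun t ht => absurd ⟨t, ht⟩ hx⟩
  choose b hb using hlad
  refine ⟨⟨r, wf, fun x => ∃ t, f t = x, b, ?_, ?_⟩, ?_⟩
  · rintro x ⟨t, rfl⟩ k
    obtain ⟨⟨m, hm⟩, -⟩ := hb _ t rfl k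
    rw [← hm]
    exact (hfK t).2 _ _
  · rintro x ⟨t, rfl⟩ k
    exact (hb _ t rfl k).2
  · intro s hs
    refine ⟨f ⟨s, hs⟩, ⟨⟨s, hs⟩, rfl⟩, fun n K => ⟨Nat.pair n K, Nat.right_le_pair n K, ?_⟩⟩
    have := (hb _ ⟨s, hs⟩ rfl (Nat.pair n K)).1
    simpa using this

end Pool.Agent.U540.VD
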