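import Pool.Agent.U540.VD.Ex

/-!
# Normality, countable paracompactness and collectionwise normality of `Sp L`, `Good L`
-/

set_option autoImplicit false

namespace Pool.Agent.U540.VD

open Set Metric

variable {L : Lad}

theorem caught (hL : Good L) (F : ℕ → Set (Sp L)) (hF : ∀ n, IsClosed (F n))
    (hu : ¬ (⋂ n, closure (e '' F n)).Countable) : (⋂ n, F n).Nonempty := by
  have hne : ∀ n, (F n).Nonempty := by
    intro n
    by_contra h
    rw [not_nonempty_iff_eq_empty] at h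
    apply hu
    have : (⋂ n, closure (e '' F n)) ⊆ ∅ := by
      refine (iInter_subset _ n).trans ?_
      rw [h]; simp
    exact (countable_empty).mono this
  have h1 : ∀ n, ∃ s : ℕ → ℝ, range s ⊆ e '' F n ∧ e '' F n ⊆ closure (range s) := by
    intro n
    have hs : TopologicalSpace.IsSeparable (e '' F n) :=
      TopologicalSpace.IsSeparable.of_separableSpace _
    obtain ⟨t, h1, h2, h3⟩ := hs.exists_countable_dense_subset
    have h4 : t.Nonempty := by
      by_contra h
      rw [not_nonempty_iff_eq_empty] at h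
      obtain ⟨x, hx⟩ := hne n
      have := h3 ⟨x, hx, rfl⟩
      rw [h, closure_empty] at this
      exact this
    obtain ⟨s, rfl⟩ := h2.exists_eq_range h4
    exact ⟨s, h1, h3⟩
  choose s hs1 hs2 using h1
  have h2 : ¬ (⋂ n, closure (range (s n))).Countable := by
    intro hc
    refine hu (hc.mono (iInter_mono fun n => ?_))
    exact closure_minimal (hs2 n) isClosed_closure
  obtain ⟨x, hP, hx⟩ := hL s h2
  refine ⟨x, mem_iInter.2 fun n => ?_⟩
  by_contra hxn
  obtain ⟨m, hm⟩ := (hF n).isOpen_compl x hxn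
  obtain ⟨k, hk, hk2⟩ := hx n m
  obtain ⟨y, hy, hyb⟩ := hs1 n hk2
  have h3 : (y : Sp L) ∈ U (L := L) x m := by
    have : (y : ℝ) = L.b x k := hyb
    rw [this]
    exact Mem.step _ _ k _ hP hk (Mem.self _ _)
  exact hm h3 hy

theorem countable_inter (hL : Good L) {F G : Set (Sp L)} (hF : IsClosed F) (hG : IsClosed G)
    (h : Disjoint F G) : (closure (e '' F) ∩ closure (e '' G)).Countable := by
  by_contra hc
  have h1 : ¬ (⋂ n : ℕ, closure (e '' (if n = 0 then F else G))).Countable := by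
    intro h2
    apply hc
    refine h2.mono fun x hx => mem_iInter.2 fun n => ?_
    split_ifs
    · exact hx.1
    · exact hx.2
  obtain ⟨x, hx⟩ := caught hL (fun n => if n = 0 then F else G) (by
    intro n
    split_ifs <;> assumption) h1
  have h2 := mem_iInter.1 hx 0
  have h3 := mem_iInter.1 hx 1
  simp only [if_true] at h2
  simp only [one_ne_zero, if_false] at h3
  exact disjoint_left.1 h h2 h3

/-- The open set of points at distance more than `δ` from `e '' S`. -/
def Far (S : Set (Sp L)) (δ : ℝ) : Set (Sp L) := e ⁻¹' (cthickening δ (e '' S))ᶜ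

/-- A closed set which contains `Far S δ` and misses `S`. -/
def Far' (S : Set (Sp L)) (δ : ℝ) : Set (Sp L) := e ⁻¹' (thickening δ (e '' S))ᶜ

theorem isOpen_Far (S : Set (Sp L)) (δ : ℝ) : IsOpen (Far S δ) :=
  (isClosed_cthickening.isOpen_compl).preimage continuous_e

theorem isClosed_Far' (S : Set (Sp L)) (δ : ℝ) : IsClosed (Far' S δ) :=
  (isOpen_thickening.isClosed_compl).preimage continuous_e

theorem Far_subset (S : Set (Sp L)) (δ : ℝ) : Far S δ ⊆ Far' S δ :=
  preimage_mono (compl_subset_compl.2 (thickening_subset_cthickening _ _))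

theorem Far'_disj (S : Set (Sp L)) {δ : ℝ} (hδ : 0 < δ) : Disjoint (Far' S δ) S := by
  rw [disjoint_left]
  intro x hx hxS
  exact hx (self_subset_thickening hδ _ ⟨x, hxS, rfl⟩)

theorem exists_Far (S : Set (Sp L)) {x : Sp L} (hx : e x ∉ closure (e '' S)) :
    ∃ n : ℕ, x ∈ Far S (1 / ((n : ℝ) + 1)) := by
  have h := closure_eq_iInter_cthickening' (e '' S) (range fun n : ℕ => 1 / ((n : ℝ) + 1))
    (by
      intro ε hε
      obtain ⟨n, hn⟩ := exists_nat_one_div_lt hε
      exact ⟨_, ⟨n, rfl⟩, by positivity, hn.le⟩)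
  rw [h] at hx
  simp only [mem_iInter, not_forall] at hx
  obtain ⟨δ, ⟨n, rfl⟩, hn⟩ := hx
  exact ⟨n, hn⟩

theorem Far_mono {S T : Set (Sp L)} {δ ε : ℝ} (hST : S ⊆ T) (h : δ ≤ ε) : Far T ε ⊆ Far S δ :=
  preimage_mono (compl_subset_compl.2
    ((cthickening_mono h _).trans (cthickening_subset_of_subset _ (image_mono hST))))

theorem sepCover {X : Type} [TopologicalSpace X] {s t : Set X} {C : Set (Set X)}
    (hC : C.Countable) (h1 : s ⊆ ⋃₀ C) (h2 : ∀ u ∈ C, IsOpen u ∧ Disjoint (closure u) t) :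
    HasSeparatingCover s t := by
  obtain ⟨u, hu⟩ := (hC.insert ∅).exists_eq_range (insert_nonempty _ _)
  refine ⟨u, ?_, ?_⟩
  · intro x hx
    obtain ⟨c, hc, hxc⟩ := h1 hx
    have : c ∈ range u := hu ▸ mem_insert_of_mem _ hc
    obtain ⟨n, rfl⟩ := this
    exact mem_iUnion.2 ⟨n, hxc⟩
  · intro n
    have : u n ∈ insert ∅ C := hu ▸ mem_range_self n
    rcases this with h | h
    · rw [h]; simp
    · exact h2 _ h

theorem hasSepCover (hL : Good L) {F G : Set (Sp L)} (hF : IsClosed F) (hG : IsClosed G)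
    (h : Disjoint F G) : HasSeparatingCover F G := by
  have hK := countable_inter hL hF hG h
  have h1 : ∀ x : Sp L, ∃ m, x ∈ F → Disjoint (U x m) G := by
    intro x
    by_cases hx : x ∈ F
    · obtain ⟨m, hm⟩ := hG.isOpen_compl x (disjoint_left.1 h hx)
      exact ⟨m, fun _ => disjoint_left.2 fun y hy => hm hy⟩
    · exact ⟨0, fun h => absurd h hx⟩
  choose m hm using h1
  have hK2 : (F ∩ e ⁻¹' closure (e '' G)).Countable := by
    have h2 : (e '' (F ∩ e ⁻¹' closure (e '' G))) ⊆ closure (e '' F) ∩ closure (e '' G) := by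
      rintro _ ⟨x, hx, rfl⟩
      exact ⟨subset_closure ⟨x, hx.1, rfl⟩, hx.2⟩
    exact (countable_of_injective_of_countable_image e_inj.injOn (hK.mono h2))
  refine sepCover (C := (range fun n : ℕ => Far G (1 / ((n : ℝ) + 1))) ∪
    (fun x => U x (m x)) '' (F ∩ e ⁻¹' closure (e '' G))) ?_ ?_ ?_
  · exact (countable_range _).union (hK2.image _)
  · intro x hx
    by_cases hxG : e x ∈ closure (e '' G)
    · exact ⟨U x (m x), Or.inr ⟨x, ⟨hx, hxG⟩, rfl⟩, self_mem _ _⟩
    · obtain ⟨n, hn⟩ := exists_Far G hxG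
      exact ⟨_, Or.inl ⟨n, rfl⟩, hn⟩
  · rintro u (⟨n, rfl⟩ | ⟨x, ⟨hx, _⟩, rfl⟩)
    · refine ⟨isOpen_Far _ _, ?_⟩
      exact (Far'_disj G (by positivity)).mono_left
        (closure_minimal (Far_subset _ _) (isClosed_Far' _ _))
    · refine ⟨isOpen_U _ _, ?_⟩
      dsimp only
      rw [(isClosed_U _ _).closure_eq]
      exact hm x hx

theorem normal (hL : Good L) : NormalSpace (Sp L) :=
  ⟨fun _ _ hs ht hd => hasSeparatingCovers_iff_separatedNhds.1
    ⟨hasSepCover hL hs ht hd, hasSepCover hL ht hs hd.symm⟩⟩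

/-- Countable open covers have locally finite refinements: covers indexed by `ℕ`. -/
theorem para_nat (hL : Good L) (O : ℕ → Set (Sp L)) (hO : ∀ n, IsOpen (O n))
    (hc : (⋃ n, O n) = univ) : ∃ V : ℕ → Set (Sp L), (∀ n, IsOpen (V n)) ∧ (∀ n, V n ⊆ O n) ∧
      (⋃ n, V n) = univ ∧ LocallyFinite V := by
  let P : ℕ → Set (Sp L) := fun n => ⋃ i ∈ {i | i ≤ n}, O i
  have hP : ∀ n, IsOpen (P n) := fun n => isOpen_biUnion fun i _ => hO i
  have hPm : ∀ {n m}, n ≤ m → P n ⊆ P m := fun {n m} h =>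
    biUnion_subset_biUnion_left fun i hi => le_trans hi h
  have hPc : ∀ x, ∃ n, x ∈ P n := by
    intro x
    have : x ∈ ⋃ n, O n := hc ▸ mem_univ x
    obtain ⟨n, hn⟩ := mem_iUnion.1 this
    exact ⟨n, mem_biUnion (x := n) (show n ≤ n from le_rfl) hn⟩
  have hK : (⋂ n, closure (e '' (P n)ᶜ)).Countable := by
    by_contra h
    obtain ⟨x, hx⟩ := caught hL (fun n => (P n)ᶜ) (fun n => (hP n).isClosed_compl) h
    obtain ⟨n, hn⟩ := hPc x
    exact mem_iInter.1 hx n hn
  obtain ⟨κ, hκ⟩ := countable_iff_exists_subset_range.1 hK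
  have h1 : ∀ i : ℕ, ∃ j m, U (L := L) (κ i) m ⊆ P j := by
    intro i
    obtain ⟨j, hj⟩ := hPc (κ i)
    obtain ⟨m, hm⟩ := hP j (κ i) hj
    exact ⟨j, m, hm⟩
  choose j m hjm using h1
  let C : ℕ → Set (Sp L) := fun n => Far' (P n)ᶜ (1 / ((n : ℝ) + 1)) ∪
    ⋃ i ∈ {i | i ≤ n ∧ j i ≤ n}, U (L := L) (κ i) (m i)
  have hfin : ∀ n, {i | i ≤ n ∧ j i ≤ n}.Finite := fun n =>
    (Set.finite_le_nat n).subset fun i hi => hi.1
  have hCc : ∀ n, IsClosed (C n) := fun n => (isClosed_Far' _ _).union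
    ((hfin n).isClosed_biUnion fun i _ => isClosed_U _ _)
  have hCP : ∀ n, C n ⊆ P n := by
    intro n x hx
    rcases hx with hx | hx
    · by_contra h
      exact disjoint_left.1 (Far'_disj (P n)ᶜ (by positivity)) hx h
    · obtain ⟨i, hi, hxi⟩ := mem_iUnion₂.1 hx
      exact hPm hi.2 (hjm i hxi)
  have hCn : ∀ x, ∃ n, C n ∈ nhds x := by
    intro x
    by_cases hx : e x ∈ ⋂ n, closure (e '' (P n)ᶜ)
    · obtain ⟨i, hi⟩ := hκ hx
      refine ⟨max i (j i), ?_⟩
      refine Filter.mem_of_superset (mem_nhds_iff'.2 ⟨m i, subset_rfl⟩) ?_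
      refine Subset.trans ?_ subset_union_right
      intro y hy
      refine mem_biUnion (x := i) ⟨le_max_left _ _, le_max_right _ _⟩ ?_
      have : κ i = x := hi
      rw [this]
      exact hy
    · simp only [mem_iInter, not_forall] at hx
      obtain ⟨n0, h0⟩ := hx
      obtain ⟨n1, h1⟩ := exists_Far _ h0
      refine ⟨max n0 n1, ?_⟩
      have h2 : x ∈ Far (P (max n0 n1))ᶜ (1 / (((max n0 n1 : ℕ) : ℝ) + 1)) := by
        refine Far_mono (compl_subset_compl.2 (hPm (le_max_left _ _))) ?_ h1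
        apply one_div_le_one_div_of_le (by positivity)
        have : (n1 : ℝ) ≤ (max n0 n1 : ℕ) := by exact_mod_cast le_max_right _ _
        linarith
      exact Filter.mem_of_superset ((isOpen_Far _ _).mem_nhds h2)
        ((Far_subset _ _).trans subset_union_left)
  refine ⟨fun n => O n \ ⋃ i ∈ {i | i < n}, C i, ?_, ?_, ?_, ?_⟩
  · intro n
    exact (hO n).sdiff ((Set.finite_lt_nat n).isClosed_biUnion fun i _ => hCc i)
  · intro n
    exact sdiff_subset
  · rw [eq_univ_iff_forall]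
    intro x
    have hx : ∃ n, x ∈ O n := mem_iUnion.1 (hc ▸ mem_univ x)
    classical
    refine mem_iUnion.2 ⟨Nat.find hx, Nat.find_spec hx, ?_⟩
    intro h
    obtain ⟨i, hi, hxi⟩ := mem_iUnion₂.1 h
    obtain ⟨k, hk, hxk⟩ := mem_iUnion₂.1 (hCP i hxi)
    exact Nat.find_min hx (lt_of_le_of_lt hk hi) hxk
  · intro x
    obtain ⟨n, hn⟩ := hCn x
    refine ⟨C n, hn, (Set.finite_le_nat n).subset ?_⟩
    rintro k ⟨y, hy1, hy2⟩
    by_contra hk
    exact hy1.2 (mem_biUnion (x := n) (show n < k from not_le.1 hk) hy2)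

/-- Countable open covers have locally finite refinements. -/
theorem para (hL : Good L) {ι : Type} [Countable ι] (O : ι → Set (Sp L))
    (hO : ∀ n, IsOpen (O n)) (hc : (⋃ n, O n) = univ) :
    ∃ V : ι → Set (Sp L), (∀ n, IsOpen (V n)) ∧ (∀ n, V n ⊆ O n) ∧
      (⋃ n, V n) = univ ∧ LocallyFinite V := by
  obtain ⟨g, hg⟩ := exists_injective_nat ι
  obtain ⟨V, h1, h2, h3, h4⟩ := para_nat hL (fun n => ⋃ i ∈ {i | g i = n}, O i)
    (fun n => isOpen_biUnion fun i _ => hO i) (by
      rw [eq_univ_iff_forall]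
      intro x
      obtain ⟨i, hi⟩ := mem_iUnion.1 (hc ▸ mem_univ x : x ∈ ⋃ n, O n)
      exact mem_iUnion.2 ⟨g i, mem_biUnion (x := i) rfl hi⟩)
  have h5 : ∀ i, V (g i) ⊆ O i := by
    intro i x hx
    obtain ⟨k, hk, hxk⟩ := mem_iUnion₂.1 (h2 _ hx)
    have := hg hk
    subst this
    exact hxk
  refine ⟨fun i => V (g i), fun i => h1 _, h5, ?_, h4.comp_injective hg⟩
  rw [eq_univ_iff_forall]
  intro x
  obtain ⟨n, hn⟩ := mem_iUnion.1 (h3 ▸ mem_univ x : x ∈ ⋃ n, V n)
  obtain ⟨k, hk, _⟩ := mem_iUnion₂.1 (h2 _ hn)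
  refine mem_iUnion.2 ⟨k, ?_⟩
  have : g k = n := hk
  rw [this]
  exact hn

/-- Closed discrete sets are countable. -/
theorem countable_of_discrete (hL : Good L) (D : Set (Sp L)) (hD : ∀ S ⊆ D, IsClosed S) :
    D.Countable := by
  have hs : TopologicalSpace.IsSeparable (e '' D) :=
    TopologicalSpace.IsSeparable.of_separableSpace _
  obtain ⟨t, h1, h2, h3⟩ := hs.exists_countable_dense_subset
  have h4 : (e ⁻¹' t : Set (Sp L)).Countable := h2.preimage e_inj
  have h5 : e ⁻¹' t ⊆ D := by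
    intro x hx
    obtain ⟨y, hy, hxy⟩ := h1 hx
    have := e_inj hxy
    subst this
    exact hy
  have h6 := countable_inter hL (hD _ h5) (hD (D \ e ⁻¹' t) sdiff_subset) disjoint_sdiff_right
  have h7 : (D \ e ⁻¹' t).Countable := by
    refine countable_of_injective_of_countable_image e_inj.injOn (h6.mono ?_)
    rintro _ ⟨x, hx, rfl⟩
    refine ⟨?_, subset_closure ⟨x, hx, rfl⟩⟩
    have h8 : e '' (e ⁻¹' t : Set (Sp L)) = t := image_preimage_eq_of_subset fun y _ => ⟨y, rfl⟩
    rw [h8]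
    exact h3 ⟨x, hx.1, rfl⟩
  exact (h4.union h7).mono fun x hx => by
    by_cases h : x ∈ e ⁻¹' t
    · exact Or.inl h
    · exact Or.inr ⟨hx, h⟩

/-- Collectionwise normality. -/
theorem cwn (hL : Good L) {ι : Type} (F : ι → Set (Sp L)) (hF : ∀ i, IsClosed (F i))
    (hd : ∀ x, ∃ W ∈ nhds x, ∀ i j, (W ∩ F i).Nonempty → (W ∩ F j).Nonempty → i = j) :
    ∃ V : ι → Set (Sp L), (∀ i, IsOpen (V i)) ∧ (∀ i, F i ⊆ V i) ∧
      Pairwise (Function.onFun Disjoint V) := by
  have := normal hL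
  have hdisj : ∀ i j x, x ∈ F i → x ∈ F j → i = j := by
    intro i j x hi hj
    obtain ⟨W, hW, h⟩ := hd x
    exact h i j ⟨x, mem_of_mem_nhds hW, hi⟩ ⟨x, mem_of_mem_nhds hW, hj⟩
  have hlf : LocallyFinite F := by
    intro x
    obtain ⟨W, hW, h⟩ := hd x
    refine ⟨W, hW, Set.Subsingleton.finite ?_⟩
    intro i hi j hj
    exact h i j (by rwa [inter_comm]) (by rwa [inter_comm])
  have hcl : ∀ N : Set ι, IsClosed (⋃ i ∈ N, F i) := by
    intro N
    rw [biUnion_eq_iUnion]
    exact (hlf.comp_injective Subtype.val_injective).isClosed_iUnion fun i => hF _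
  -- countably many nonempty sets
  have hN : {i | (F i).Nonempty}.Countable := by
    have hsel : ∀ i : {i | (F i).Nonempty}, ∃ x, x ∈ F i.1 := fun i => i.2
    choose d hd2 using hsel
    have hinj : Function.Injective d := by
      intro i j hij
      apply Subtype.ext
      exact hdisj _ _ (d i) (hd2 i) (hij ▸ hd2 j)
    have hD := countable_of_discrete hL (range d) (by
      intro S hS
      have h1 : S = ⋃ i : {i // d i ∈ S}, {d i.1} := by
        ext x
        simp only [mem_iUnion, mem_singleton_iff]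
        constructor
        · intro hx
          obtain ⟨i, rfl⟩ := hS hx
          exact ⟨⟨i, hx⟩, rfl⟩
        · rintro ⟨i, rfl⟩
          exact i.2
      rw [h1]
      refine LocallyFinite.isClosed_iUnion ?_ fun i => isClosed_singleton
      intro x
      obtain ⟨W, hW, h⟩ := hd x
      refine ⟨W, hW, Set.Subsingleton.finite ?_⟩
      rintro i ⟨y, hy1, hy2⟩ j ⟨z, hz1, hz2⟩
      rw [mem_singleton_iff] at hy1 hz1
      subst hy1
      subst hz1
      have := h i.1.1 j.1.1 ⟨_, hy2, hd2 _⟩ ⟨_, hz2, hd2 _⟩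
      exact Subtype.ext (Subtype.ext this))
    have : Countable {i | (F i).Nonempty} := by
      have : Countable (range d) := hD
      exact (Equiv.ofInjective d hinj).countable_iff.2 this
    exact this
  have : Countable {i | (F i).Nonempty} := hN
  obtain ⟨g, hg⟩ := exists_injective_nat {i | (F i).Nonempty}
  have h1 : ∀ i, ∃ v, IsOpen v ∧ F i ⊆ v ∧ closure v ⊆ (⋃ j ∈ {j | j ≠ i}, F j)ᶜ := by
    intro i
    apply normal_exists_closure_subset (hF i) (hcl _).isOpen_compl
    intro x hx hx2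
    obtain ⟨j, hj, hxj⟩ := mem_iUnion₂.1 hx2
    exact hj (hdisj _ _ x hxj hx)
  choose O hO1 hO2 hO3 using h1
  let N := {i | (F i).Nonempty}
  let V : ι → Set (Sp L) := fun i => {x | ∃ hi : i ∈ N, x ∈ O i ∧
    ∀ k : N, g k < g ⟨i, hi⟩ → x ∉ closure (O k.1)}
  refine ⟨V, ?_, ?_, ?_⟩
  · intro i
    by_cases hi : i ∈ N
    · have h2 : V i = O i \ ⋃ k ∈ {k : N | g k < g ⟨i, hi⟩}, closure (O k.1) := by
        ext x
        simp only [V, mem_ofPred_eq, mem_sdiff, mem_iUnion, not_exists, exists_prop]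
        constructor
        · rintro ⟨_, h3, h4⟩
          exact ⟨h3, fun k hk => h4 k hk.1 hk.2⟩
        · rintro ⟨h3, h4⟩
          exact ⟨hi, h3, fun k hk h => h4 k ⟨hk, h⟩⟩
      rw [h2]
      refine (hO1 i).sdiff (Set.Finite.isClosed_biUnion ?_ fun k _ => isClosed_closure)
      exact (Set.finite_lt_nat (g ⟨i, hi⟩)).preimage hg.injOn
    · have h2 : V i = ∅ := by
        ext x
        simp only [V, mem_ofPred_eq, mem_empty_iff_false, iff_false]
        rintro ⟨h3, _⟩
        exact hi h3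
      rw [h2]
      exact isOpen_empty
  · intro i x hx
    refine ⟨⟨x, hx⟩, hO2 i hx, fun k hk hxk => ?_⟩
    refine hO3 k.1 hxk (mem_biUnion (x := i) ?_ hx)
    rintro rfl
    exact lt_irrefl _ hk
  · intro i j hij
    rw [Function.onFun, disjoint_left]
    rintro x ⟨hi, hx1, hx2⟩ ⟨hj, hx3, hx4⟩
    rcases lt_trichotomy (g ⟨i, hi⟩) (g ⟨j, hj⟩) with h | h | h
    · exact hx4 _ h (subset_closure hx1)
    · exact hij (congrArg Subtype.val (hg h))
    · exact hx2 _ h (subset_closure hx3)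

end Pool.Agent.U540.VD
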