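import Mathlib

/-!
# Ladder topologies on the real line

`Lad`: a well-founded relation `r` on `ℝ` and for every `x` with `P x` a sequence `b x k` of
`r`-smaller reals with `|b x k - x| ≤ 1 / (2 (k + 1))`. The sets `U x n` (least sets with
`x ∈ U x n` and `U (b x k) (2 k + 1) ⊆ U x n` for `k ≥ n`) form a base of a locally compact,
locally countable Hausdorff topology on `ℝ` finer than the usual one.
-/

set_option autoImplicit false

namespace Pool.Agent.U540.VD

open Set

/-- A ladder system on the real line. -/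
structure Lad where
  r : ℝ → ℝ → Prop
  wf : WellFounded r
  P : ℝ → Prop
  b : ℝ → ℕ → ℝ
  hb : ∀ x, P x → ∀ k, r (b x k) x
  hd : ∀ x, P x → ∀ k : ℕ, |b x k - x| ≤ 1 / (2 * ((k : ℝ) + 1))

/-- The real line with the ladder topology. -/
def Sp (_ : Lad) : Type := ℝ

/-- The identity map to the real line. -/
def e {L : Lad} (x : Sp L) : ℝ := x

theorem e_inj {L : Lad} : Function.Injective (e (L := L)) := fun _ _ h => h

/-- Membership in the basic neighbourhoods. -/
inductive Mem (L : Lad) : ℝ → ℕ → ℝ → Prop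
  | self (x : ℝ) (n : ℕ) : Mem L x n x
  | step (x : ℝ) (n k : ℕ) (y : ℝ) : L.P x → n ≤ k → Mem L (L.b x k) (2 * k + 1) y → Mem L x n y

variable {L : Lad}

/-- The basic neighbourhoods. -/
def U (x : Sp L) (n : ℕ) : Set (Sp L) := {y | Mem L x n y}

theorem self_mem (x : Sp L) (n : ℕ) : x ∈ U x n := Mem.self _ _

theorem U_anti (x : Sp L) {n m : ℕ} (h : n ≤ m) : U x m ⊆ U x n := by
  intro y hy
  cases hy with
  | self => exact Mem.self _ _
  | step _ _ k _ hP hk hm => exact Mem.step _ _ k _ hP (h.trans hk) hm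

theorem U_step (x : Sp L) {n k : ℕ} (hP : L.P x) (h : n ≤ k) :
    U (L := L) (L.b x k) (2 * k + 1) ⊆ U x n := fun _ hy => Mem.step _ _ k _ hP h hy

theorem U_nbhd_aux {x : ℝ} {n : ℕ} {y : ℝ} (h : Mem L x n y) :
    ∃ m, U (L := L) y m ⊆ U (L := L) x n := by
  induction h with
  | self x n => exact ⟨n, subset_rfl⟩
  | step x n k y hP hk _ ih =>
    obtain ⟨m, hm⟩ := ih
    exact ⟨m, hm.trans (U_step (L := L) x hP hk)⟩

theorem U_dist_aux {x : ℝ} {n : ℕ} {y : ℝ} (h : Mem L x n y) :
    |y - x| ≤ 1 / ((n : ℝ) + 1) := by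
  induction h with
  | self x n => simp; positivity
  | step x n k y hP hk _ ih =>
    have h1 := L.hd x hP k
    have h2 : |y - x| ≤ |y - L.b x k| + |L.b x k - x| := by
      have := abs_add_le (y - L.b x k) (L.b x k - x)
      simpa using this
    have h3 : (1 : ℝ) / (((2 * k + 1 : ℕ) : ℝ) + 1) = 1 / (2 * ((k : ℝ) + 1)) := by
      push_cast; ring_nf
    rw [h3] at ih
    have h4 : (1 : ℝ) / (2 * ((k : ℝ) + 1)) + 1 / (2 * ((k : ℝ) + 1)) = 1 / ((k : ℝ) + 1) := by
      field_simp; norm_num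
    have h5 : (1 : ℝ) / ((k : ℝ) + 1) ≤ 1 / ((n : ℝ) + 1) := by
      apply one_div_le_one_div_of_le (by positivity)
      have : (n : ℝ) ≤ k := by exact_mod_cast hk
      linarith
    linarith

instance : TopologicalSpace (Sp L) where
  IsOpen O := ∀ x ∈ O, ∃ n, U x n ⊆ O
  isOpen_univ := fun x _ => ⟨0, subset_univ _⟩
  isOpen_inter := by
    intro s t hs ht x hx
    obtain ⟨n, hn⟩ := hs x hx.1
    obtain ⟨m, hm⟩ := ht x hx.2
    exact ⟨max n m, fun y hy => ⟨hn (U_anti x (le_max_left _ _) hy),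
      hm (U_anti x (le_max_right _ _) hy)⟩⟩
  isOpen_sUnion := by
    intro S hS x hx
    obtain ⟨s, hs, hxs⟩ := hx
    obtain ⟨n, hn⟩ := hS s hs x hxs
    exact ⟨n, fun y hy => ⟨s, hs, hn hy⟩⟩

theorem isOpen_iff' {O : Set (Sp L)} : IsOpen O ↔ ∀ x ∈ O, ∃ n, U x n ⊆ O := Iff.rfl

theorem isOpen_U (x : Sp L) (n : ℕ) : IsOpen (U x n) := fun _ hy => U_nbhd_aux hy

theorem mem_nhds_iff' {x : Sp L} {N : Set (Sp L)} : N ∈ nhds x ↔ ∃ n, U x n ⊆ N := by
  rw [mem_nhds_iff]
  constructor
  · rintro ⟨O, hO, h1, h2⟩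
    obtain ⟨n, hn⟩ := h1 x h2
    exact ⟨n, hn.trans hO⟩
  · rintro ⟨n, hn⟩
    exact ⟨U x n, hn, isOpen_U x n, self_mem x n⟩

theorem continuous_e : Continuous (e (L := L)) := by
  rw [continuous_def]
  intro O hO x hx
  obtain ⟨ε, hε, h⟩ := Metric.isOpen_iff.1 hO (e x) hx
  obtain ⟨n, hn⟩ := exists_nat_one_div_lt hε
  refine ⟨n, fun y hy => h ?_⟩
  rw [Metric.mem_ball, Real.dist_eq]
  exact lt_of_le_of_lt (U_dist_aux hy) hn

instance : T2Space (Sp L) := T2Space.of_injective_continuous e_inj continuous_e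

theorem isCompact_U (x : Sp L) : ∀ n, IsCompact (U x n) := by
  have key : ∀ x : ℝ, ∀ n, IsCompact (U (L := L) x n) := by
    intro x
    induction x using L.wf.induction with
    | _ x ih =>
      intro n
      apply isCompact_of_finite_subcover
      intro ι W hW hc
      obtain ⟨i₀, hi₀⟩ := mem_iUnion.1 (hc (self_mem (L := L) x n))
      obtain ⟨m, hm⟩ := hW i₀ x hi₀
      by_cases hP : L.P x
      · have hK : IsCompact (⋃ k ∈ {k : ℕ | n ≤ k ∧ k < m}, U (L := L) (L.b x k) (2 * k + 1)) := by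
          apply Set.Finite.isCompact_biUnion
          · exact (Set.finite_lt_nat m).subset fun k hk => hk.2
          · intro k _
            exact ih _ (L.hb x hP k) _
        have hK2 : (⋃ k ∈ {k : ℕ | n ≤ k ∧ k < m}, U (L := L) (L.b x k) (2 * k + 1)) ⊆
            ⋃ i, W i := by
          refine Set.iUnion₂_subset fun k hk => ?_
          exact (U_step (L := L) x hP hk.1).trans hc
        obtain ⟨t, ht⟩ := hK.elim_finite_subcover W hW hK2
        classical
        refine ⟨insert i₀ t, ?_⟩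
        intro y hy
        rw [mem_iUnion₂]
        cases hy with
        | self => exact ⟨i₀, Finset.mem_insert_self _ _, hi₀⟩
        | step _ _ k _ _ hk hy =>
          by_cases hkm : k < m
          · have := ht (mem_iUnion₂.2 ⟨k, ⟨hk, hkm⟩, hy⟩)
            obtain ⟨i, hi, hyi⟩ := mem_iUnion₂.1 this
            exact ⟨i, Finset.mem_insert_of_mem hi, hyi⟩
          · exact ⟨i₀, Finset.mem_insert_self _ _, hm (U_step (L := L) x hP (not_lt.1 hkm) hy)⟩
      · refine ⟨{i₀}, ?_⟩
        intro y hy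
        rw [mem_iUnion₂]
        cases hy with
        | self => exact ⟨i₀, by simp, hi₀⟩
        | step _ _ k _ hP' => exact absurd hP' hP
  exact key x

theorem isClosed_U (x : Sp L) (n : ℕ) : IsClosed (U x n) := (isCompact_U x n).isClosed

theorem countable_U (x : Sp L) (n : ℕ) : (U x n).Countable := by
  have key : ∀ {x : ℝ} {n : ℕ} {y : ℝ}, Mem L x n y →
      ∃ l : List ℕ, l.foldl (fun a k => L.b a k) x = y := by
    intro x n y h
    induction h with
    | self x n => exact ⟨[], rfl⟩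
    | step x n k y hP hk _ ih =>
      obtain ⟨l, hl⟩ := ih
      exact ⟨k :: l, hl⟩
  refine Set.Countable.mono ?_ (Set.countable_range fun l : List ℕ =>
    (l.foldl (fun a k => L.b a k) (show ℝ from x) : ℝ))
  intro y hy
  obtain ⟨l, hl⟩ := key hy
  exact ⟨l, hl⟩

instance : WeaklyLocallyCompactSpace (Sp L) where
  exists_compact_mem_nhds x := ⟨U x 0, isCompact_U x 0, mem_nhds_iff'.2 ⟨0, subset_rfl⟩⟩

/-- Compact sets are countable. -/
theorem countable_of_isCompact {K : Set (Sp L)} (hK : IsCompact K) : K.Countable := by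
  obtain ⟨t, _, ht⟩ := hK.elim_nhds_subcover (fun x => U x 0) fun x _ =>
    mem_nhds_iff'.2 ⟨0, subset_rfl⟩
  exact ((Finset.countable_toSet t).biUnion fun x _ => countable_U x 0).mono ht

end Pool.Agent.U540.VD
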